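import Pool.Agent.helper54.XP.SpecG

/-!
# Project xp, module GSE (copy of helper3/V3/GSE.lean)
-/

set_option autoImplicit false

open Complex Metric Set Filter Topology MeasureTheory XP
open V3S (UF UF_em)

noncomputable section

namespace XPG

theorem GSE_aff (f : ℂ → ℂ) (hf : Differentiable ℂ f) (a : ℂ) (R ε : ℝ)
    (h : ∀ x ∈ ball (0 : ℂ) R, ‖deriv f x - a‖ ≤ ε * ‖a‖) (x y : ℂ) (hx : x ∈ ball (0 : ℂ) R)
    (hy : y ∈ ball (0 : ℂ) R) : ‖f y - f x - a * (y - x)‖ ≤ ε * ‖a‖ * ‖y - x‖ := by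
  have key := Convex.norm_image_sub_le_of_norm_deriv_le (𝕜 := ℂ) (f := fun z => f z - a * z)
    (C := ε * ‖a‖) (s := ball (0 : ℂ) R) (x := x) (y := y)
    (fun z _ => (hf z).sub ((differentiableAt_id (x := z)).const_mul a)) (by
      intro z hz
      have h1 : deriv (fun z => f z - a * z) z = deriv f z - a := by
        have h2 : HasDerivAt (fun z => f z - a * z) (deriv f z - a * 1) z :=
          (hf z).hasDerivAt.sub ((hasDerivAt_id z).const_mul a)
        rw [h2.deriv, mul_one]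
      rw [h1]
      exact h z hz) (convex_ball 0 R) hx hy
  have e : f y - f x - a * (y - x) = (f y - a * y) - (f x - a * x) := by ring
  rw [e]
  exact key

theorem GSE_zero (f : ℂ → ℂ) (hf : Differentiable ℂ f) (a : ℂ) (ρ : ℝ) (hρ : 0 < ρ)
    (h : ∀ x ∈ ball (0 : ℂ) (3 * ρ), ‖deriv f x - a‖ ≤ 1 / 10 * ‖a‖) (x : ℂ) (hx : ‖x‖ < ρ)
    (ha : 10 < ‖a‖) (hfx : ‖f x‖ ≤ 2 * ρ) : ∃ y ∈ ball (0 : ℂ) (3 * ρ), f y = 0 := by
  have ha0 : a ≠ 0 := by
    intro h0
    rw [h0, norm_zero] at ha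
    linarith
  have hsub : ∀ y ∈ closedBall x ρ, y ∈ ball (0 : ℂ) (3 * ρ) := by
    intro y hy
    rw [mem_closedBall, dist_eq_norm] at hy
    rw [mem_ball, dist_zero_right]
    have : ‖y‖ ≤ ‖y - x‖ + ‖x‖ := by
      have := norm_add_le (y - x) x
      rwa [sub_add_cancel] at this
    linarith
  have hxb : x ∈ closedBall x ρ := mem_closedBall_self hρ.le
  -- the map
  let T : ℂ → ℂ := fun y => y - f y / a
  have hT : ∀ y ∈ closedBall x ρ, ∀ z ∈ closedBall x ρ, ‖T y - T z‖ ≤ 1 / 10 * ‖y - z‖ := by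
    intro y hy z hz
    have h1 := GSE_aff f hf a (3 * ρ) (1 / 10) h z y (hsub z hz) (hsub y hy)
    have h2 : T y - T z = -(f y - f z - a * (y - z)) / a := by
      simp only [T]
      field_simp
      ring
    rw [h2, norm_div, norm_neg, div_le_iff₀ (by linarith)]
    linarith
  have hTx : ‖T x - x‖ ≤ ρ / 5 := by
    have : T x - x = -(f x / a) := by simp only [T]; ring
    rw [this, norm_neg, norm_div, div_le_iff₀ (by linarith)]
    nlinarith
  have hmaps : MapsTo T (closedBall x ρ) (closedBall x ρ) := by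
    intro y hy
    have h1 := hT y hy x hxb
    have hy' := hy
    rw [mem_closedBall, dist_eq_norm] at hy'
    rw [mem_closedBall, dist_eq_norm]
    have h2 : ‖T y - x‖ ≤ ‖T y - T x‖ + ‖T x - x‖ := by
      have := norm_add_le (T y - T x) (T x - x)
      rwa [sub_add_sub_cancel] at this
    linarith
  have hcon : ContractingWith (1 / 10 : NNReal) (hmaps.restrict T _ _) := by
    refine ⟨?_, ?_⟩
    · rw [← NNReal.coe_lt_coe]
      push_cast
      norm_num
    · refine LipschitzWith.of_dist_le_mul ?_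
      intro y z
      have := hT y.1 y.2 z.1 z.2
      rw [Subtype.dist_eq, Subtype.dist_eq, dist_eq_norm, dist_eq_norm]
      simpa using this
  obtain ⟨y, hy, hfix, -⟩ := hcon.exists_fixedPoint' (isClosed_closedBall.isComplete) hmaps hxb
    (edist_ne_top _ _)
  refine ⟨y, hsub y hy, ?_⟩
  have h3 : y - f y / a = y := hfix
  have h4 : f y / a = 0 := by
    have : f y / a = y - (y - f y / a) := by ring
    rw [this, h3, sub_self]
  rcases div_eq_zero_iff.mp h4 with h5 | h5
  · exact h5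
  · exact absurd h5 ha0

theorem GSE_val (k q : ℕ) [NeZero k] (hq : 1 ≤ q) (hqk : q < k) :
    (-((q : ℕ) : ZMod k)) = ((k - q : ℕ) : ZMod k) ∧ (-((q : ℕ) : ZMod k)).val = k - q ∧
    (-((q : ℕ) : ZMod k)) ≠ 0 ∧ ((q : ℕ) : ZMod k).val = q := by
  have h1 : (-((q : ℕ) : ZMod k)) = ((k - q : ℕ) : ZMod k) := by
    rw [Nat.cast_sub hqk.le, ZMod.natCast_self, zero_sub]
  have h2 : (-((q : ℕ) : ZMod k)).val = k - q := by
    rw [h1]
    exact ZMod.val_natCast_of_lt (by omega)
  refine ⟨h1, h2, ?_, ZMod.val_natCast_of_lt hqk⟩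
  intro h3
  rw [h3, ZMod.val_zero] at h2
  omega

theorem GSE (hBA : GBA_stmt) (hLB : GLB_stmt) (hFK : GFK_stmt) : GSE_stmt := by
  intro n C C' C'' D A hS hL hA i j x x' ρ X X' hev hx hx'
  have hρ : 0 < ρ := by
    obtain ⟨m, hm⟩ := hev.exists
    exact lt_of_le_of_lt (norm_nonneg _) hm.2.2.2.1
  obtain ⟨hLB1, hLB2, hLB3, hLB4, hLB5, -, -⟩ := hLB n C C' C'' D hS hL
  have hba := fun m => hBA n C (D m) (hS.ok m)
  have hdiff : ∀ m a, Differentiable ℂ ((D m).F a) := by
    intro m a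
    obtain ⟨Q, hQ⟩ := (hba m).2.2.2.2.2.2.2.1 a
    have : (D m).F a = fun x => Q.eval x := funext hQ
    rw [this]
    exact Q.differentiable
  -- the basic identity
  have hid : ∀ᶠ m in UF, (D m).F ((D m).k - (j m - i m)) (x m) = (D m).F (D m).k (x' m) ∧
      1 ≤ j m - i m ∧ j m - i m < (D m).k ∧ ‖x m‖ < ρ ∧ ‖x' m‖ < ρ := by
    filter_upwards [hev] with m hm
    obtain ⟨h1, h2, h3, h4, h5, h6⟩ := hm
    refine ⟨?_, by omega, h2, h4, h5⟩
    have e1 : (D m).k - (j m - i m) = ((D m).k - j m) + i m := by omega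
    have e2 : (D m).k = ((D m).k - j m) + j m := by omega
    rw [e1, (hba m).2.2.2.1, h6, ← (hba m).2.2.2.1, ← e2]
  have hfk := (hFK n C C' C'' D hS hL)
  rcases UF_em (fun m => ‖(D m).A ((D m).k - (j m - i m))‖ ≤ 10) with hc | hc
  · -- first case
    have hbd : ∀ᶠ m in UF, ‖(D m).p (-((j m - i m : ℕ) : ZMod (D m).k))‖ ≤ 13 * ρ := by
      filter_upwards [hid, hc, (hfk ρ hρ).2 ρ hρ, hL.aff ρ hρ (1 / 10) (by norm_num)]
        with m h1 h2 h3 h4
      obtain ⟨h1a, h1b, h1c, h1d, h1e⟩ := h1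
      obtain ⟨v1, v2, v3, v4⟩ := GSE_val (D m).k (j m - i m) h1b h1c
      have e0 : (D m).F ((D m).k - (j m - i m)) 0 = (D m).p (-((j m - i m : ℕ) : ZMod (D m).k)) := by
        have := (hba m).2.2.2.2.2.1 ((D m).k - (j m - i m)) 0
        rw [(hba m).2.2.2.2.2.2.1, zero_add, ← v1] at this
        exact this
      rw [← e0]
      have h5 := GSE_aff _ (hdiff m ((D m).k - (j m - i m))) ((D m).A ((D m).k - (j m - i m))) ρ
        (1 / 10) (h4 ((D m).k - (j m - i m)) (Nat.sub_le _ _)) (x m) 0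
        (by rw [mem_ball, dist_zero_right]; exact h1d) (mem_ball_self hρ)
      have h6 := (h3 (x' m) (by rw [mem_ball, dist_zero_right]; exact h1e)).1
      rw [← h1a] at h6
      set a := (D m).A ((D m).k - (j m - i m)) with ha
      set u := (D m).F ((D m).k - (j m - i m)) (x m) with hu
      set w := (D m).F ((D m).k - (j m - i m)) 0 with hw
      have h7 : ‖u‖ ≤ 2 * ρ := by
        have := norm_add_le (u - x' m) (x' m)
        rw [sub_add_cancel] at this
        linarith
      have h8 : w = (w - u - a * (0 - x m)) + u + a * (0 - x m) := by ring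
      have h9 : ‖a * (0 - x m)‖ ≤ 10 * ρ := by
        rw [norm_mul, zero_sub, norm_neg]
        exact mul_le_mul h2 h1d.le (norm_nonneg _) (by norm_num)
      have h10 : ‖w - u - a * (0 - x m)‖ ≤ ρ := by
        refine le_trans h5 ?_
        rw [zero_sub, norm_neg]
        have : ‖a‖ * ‖x m‖ ≤ 10 * ρ := mul_le_mul h2 h1d.le (norm_nonneg _) (by norm_num)
        nlinarith
      rw [h8]
      refine le_trans (norm_add₃_le) ?_
      linarith
    obtain ⟨p, hp, -, hlab⟩ := hLB3 _ _ hbd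
    refine ⟨p, hp, ?_, hlab, ?_⟩
    · intro h0
      rw [h0] at hlab
      have := hLB4 _ _ _ hlab hLB5
      obtain ⟨m, hm1, hm2⟩ := (this.and hid).exists
      exact (GSE_val (D m).k (j m - i m) hm2.2.1 hm2.2.2.1).2.2.1 hm1
    · have ht : Tendsto (fun m => x' m - (p + A p * x m)) UF (𝓝 (X' - (p + A p * X))) :=
        hx'.sub (tendsto_const_nhds.add (hx.const_mul (A p)))
      have ht0 : Tendsto (fun m => x' m - (p + A p * x m)) UF (𝓝 0) := by
        rw [Metric.tendsto_nhds]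
        intro ε hε
        filter_upwards [hid, (hfk ρ hρ).2 (ε / 3) (by positivity),
          hA.unif p hp _ hlab ρ hρ (ε / 3) (by positivity)] with m h1 h2 h3
        obtain ⟨h1a, h1b, h1c, h1d, h1e⟩ := h1
        obtain ⟨v1, v2, v3, v4⟩ := GSE_val (D m).k (j m - i m) h1b h1c
        have h4 := (h3 (x m) (by rw [mem_ball, dist_zero_right]; exact h1d)).1
        rw [v2, h1a] at h4
        have h5 := (h2 (x' m) (by rw [mem_ball, dist_zero_right]; exact h1e)).1
        rw [dist_zero_right]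
        have e : x' m - (p + A p * x m) =
            ((D m).F (D m).k (x' m) - (p + A p * x m)) - ((D m).F (D m).k (x' m) - x' m) := by ring
        rw [e]
        refine lt_of_le_of_lt (norm_sub_le _ _) ?_
        linarith
      have := tendsto_nhds_unique ht ht0
      exact sub_eq_zero.mp this
  · -- second case
    exfalso
    have hbd : ∀ᶠ m in UF, ‖(D m).p ((j m - i m : ℕ) : ZMod (D m).k)‖ ≤ 4 * ρ := by
      filter_upwards [hid, hc, (hfk ρ hρ).2 ρ hρ, hL.aff (3 * ρ) (by positivity) (1 / 10)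
        (by norm_num), (hfk (3 * ρ) (by positivity)).2 ρ hρ] with m h1 h2 h3 h4 h5
      obtain ⟨h1a, h1b, h1c, h1d, h1e⟩ := h1
      have h6 := (h3 (x' m) (by rw [mem_ball, dist_zero_right]; exact h1e)).1
      rw [← h1a] at h6
      have h7 : ‖(D m).F ((D m).k - (j m - i m)) (x m)‖ ≤ 2 * ρ := by
        have := norm_add_le ((D m).F ((D m).k - (j m - i m)) (x m) - x' m) (x' m)
        rw [sub_add_cancel] at this
        linarith
      obtain ⟨y, hy, hy0⟩ := GSE_zero _ (hdiff m ((D m).k - (j m - i m)))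
        ((D m).A ((D m).k - (j m - i m))) ρ hρ
        (h4 ((D m).k - (j m - i m)) (Nat.sub_le _ _)) (x m) h1d (not_le.mp h2) h7
      have e0 : (D m).F (j m - i m) 0 = (D m).p ((j m - i m : ℕ) : ZMod (D m).k) := by
        have := (hba m).2.2.2.2.2.1 (j m - i m) 0
        rw [(hba m).2.2.2.2.2.2.1, zero_add] at this
        exact this
      have e1 : (D m).F (j m - i m) 0 = (D m).F (D m).k y := by
        rw [← hy0, ← (hba m).2.2.2.1]
        congr 1
        omega
      rw [← e0, e1]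
      have h8 := (h5 y hy).1
      rw [mem_ball, dist_zero_right] at hy
      have := norm_add_le ((D m).F (D m).k y - y) y
      rw [sub_add_cancel] at this
      linarith
    obtain ⟨p₁, hp₁, -, hlab⟩ := hLB3 _ _ hbd
    have hneg := hA.neg p₁ hp₁ _ hlab
    have hin := hA.inv p₁ hp₁
    have htd := hA.tend _ hin.1 _ hneg
    have hn := hA.nrm _ hin.1
    have htn := htd.norm
    rw [hn] at htn
    have hlt : ∀ᶠ m in UF, ‖(D m).A (-((j m - i m : ℕ) : ZMod (D m).k)).val‖ < 2 :=
      htn.eventually (gt_mem_nhds (by norm_num))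
    obtain ⟨m, hm⟩ := (hlt.and (hid.and hc)).exists
    obtain ⟨hm1, hm2, hm3⟩ := hm
    rw [(GSE_val (D m).k (j m - i m) hm2.2.1 hm2.2.2.1).2.1] at hm1
    apply hm3
    linarith

end XPG

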