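import Pool.Agent.helper60.XP.SpecE
import Pool.Agent.helper73.V3.PPH

/-!
# Project xp, module PPH: the phases at the two ends
-/

set_option autoImplicit false

open Complex Metric Set Filter Topology MeasureTheory
open V3 (En ZL)

noncomputable section

namespace XPE

theorem PPH_F3 (a b c Z : ℂ) (ha : a ≠ 0) (κ : ℝ) (hκ : (‖b‖ + ‖c‖) / ‖a‖ + 3 ≤ κ)
    (hZ : 8 * κ * ‖Z‖ ≤ 1) :
    ‖V3.PPH_ph ((a + b * Z + c * Z ^ 2) / (1 - Z) ^ 2) - V3.PPH_ph a‖ ≤ 16 * κ * ‖Z‖ := by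
  have ha' : 0 < ‖a‖ := norm_pos_iff.mpr ha
  have hba : 0 ≤ (‖b‖ + ‖c‖) / ‖a‖ := by positivity
  have hZ0 : 0 ≤ ‖Z‖ := norm_nonneg Z
  have hZ1 : ‖Z‖ ≤ 1 := by nlinarith
  have h1 : ‖b + c * Z‖ ≤ ‖b‖ + ‖c‖ := by
    calc ‖b + c * Z‖ ≤ ‖b‖ + ‖c * Z‖ := norm_add_le _ _
      _ = ‖b‖ + ‖c‖ * ‖Z‖ := by rw [norm_mul]
      _ ≤ ‖b‖ + ‖c‖ := by
          have := mul_le_mul_of_nonneg_left hZ1 (norm_nonneg c)
          linarith
  have h2 : ‖b + c * Z‖ / ‖a‖ + 3 ≤ κ := by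
    have := div_le_div_of_nonneg_right h1 ha'.le
    linarith
  have h3 := V3.PPH_F a (b + c * Z) Z ha κ h2 hZ
  have h4 : a + b * Z + c * Z ^ 2 = a + (b + c * Z) * Z := by ring
  rw [h4]
  exact h3

theorem PPH_genup (B : ℂ → ℂ) (t a b c : ℂ) (j : ℤ) (ha : a ≠ 0)
    (hB : ∀ s η : ℝ, η ≠ 0 → B (t * (s + η * I)) =
      exp (2 * Real.pi * I * (s + η * I)) ^ j * ((a + b * exp (2 * Real.pi * I * (s + η * I)) +
        c * exp (2 * Real.pi * I * (s + η * I)) ^ 2) / (1 - exp (2 * Real.pi * I * (s + η * I))) ^ 2)) :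
    ∃ (K Y₀ : ℝ) (d : ℂ), 0 < Y₀ ∧ 0 ≤ K ∧ ‖d‖ = 1 ∧
    (∀ s η : ℝ, Y₀ ≤ η → ‖V3.PPH_ph (B (t * (s + η * I))) -
      d * exp (-(2 * Real.pi * I * j * s))‖ ≤ K * Real.exp (-(2 * Real.pi * η))) := by
  refine ⟨16 * ((‖b‖ + ‖c‖) / ‖a‖ + 3), 8 * ((‖b‖ + ‖c‖) / ‖a‖ + 3), V3.PPH_ph a, by positivity, by positivity,
    V3.PPH_norm_ph a ha, ?_⟩
  intro s η hη
  have hk : 0 ≤ (‖b‖ + ‖c‖) / ‖a‖ := by positivity
  have hη0 : η ≠ 0 := by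
    have : 0 < η := by linarith
    exact this.ne'
  rw [hB s η hη0]
  have hY0 : exp (2 * Real.pi * I * (s + η * I)) ≠ 0 := exp_ne_zero _
  have hYn : ‖exp (2 * Real.pi * I * (s + η * I))‖ = Real.exp (-(2 * Real.pi * η)) := V3.PPH_normY s η
  rw [← V3.PPH_phY s η j]
  refine V3.PPH_twist _ _ _ (zpow_ne_zero _ hY0) _ ?_
  have h3 := PPH_F3 a b c (exp (2 * Real.pi * I * (s + η * I))) ha ((‖b‖ + ‖c‖) / ‖a‖ + 3) le_rfl
    (by rw [hYn]; exact V3.PPH_exp_small _ η (by linarith) hη)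
  rw [hYn] at h3
  exact h3

theorem PPH_genlow (B : ℂ → ℂ) (t a b c : ℂ) (j : ℤ) (ha : a ≠ 0)
    (hB : ∀ s η : ℝ, η ≠ 0 → B (t * (s + η * I)) =
      exp (2 * Real.pi * I * (s + η * I)) ^ j * ((a + b * (exp (2 * Real.pi * I * (s + η * I)))⁻¹ +
        c * (exp (2 * Real.pi * I * (s + η * I)))⁻¹ ^ 2) / (1 - (exp (2 * Real.pi * I * (s + η * I)))⁻¹) ^ 2)) :
    ∃ (K Y₀ : ℝ) (d : ℂ), 0 < Y₀ ∧ 0 ≤ K ∧ ‖d‖ = 1 ∧
    (∀ s η : ℝ, η ≤ -Y₀ → ‖V3.PPH_ph (B (t * (s + η * I))) -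
      d * exp (-(2 * Real.pi * I * j * s))‖ ≤ K * Real.exp (2 * Real.pi * η)) := by
  refine ⟨16 * ((‖b‖ + ‖c‖) / ‖a‖ + 3), 8 * ((‖b‖ + ‖c‖) / ‖a‖ + 3), V3.PPH_ph a, by positivity, by positivity,
    V3.PPH_norm_ph a ha, ?_⟩
  intro s η hη
  have hk : 0 ≤ (‖b‖ + ‖c‖) / ‖a‖ := by positivity
  have hη0 : η ≠ 0 := by
    have : η < 0 := by linarith
    exact this.ne
  rw [hB s η hη0]
  have hY0 : exp (2 * Real.pi * I * (s + η * I)) ≠ 0 := exp_ne_zero _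
  have hYn : ‖exp (2 * Real.pi * I * (s + η * I))‖ = Real.exp (-(2 * Real.pi * η)) := V3.PPH_normY s η
  have hZn : ‖(exp (2 * Real.pi * I * (s + η * I)))⁻¹‖ = Real.exp (-(2 * Real.pi * (-η))) := by
    rw [norm_inv, hYn, ← Real.exp_neg]
    congr 1
    ring
  rw [← V3.PPH_phY s η j]
  refine V3.PPH_twist _ _ _ (zpow_ne_zero _ hY0) _ ?_
  have h3 := PPH_F3 a b c (exp (2 * Real.pi * I * (s + η * I)))⁻¹ ha ((‖b‖ + ‖c‖) / ‖a‖ + 3) le_rfl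
    (by rw [hZn]; exact V3.PPH_exp_small _ (-η) (by linarith) (by linarith))
  rw [hZn] at h3
  have e2 : -(2 * Real.pi * -η) = 2 * Real.pi * η := by ring
  rw [e2] at h3
  exact h3

/-- the upper end -/
theorem PPH_up (B : ℂ → ℂ) (t α β γ : ℂ) (ht : t ≠ 0) (hab : α ≠ 0 ∨ β ≠ 0 ∨ γ ≠ 0) (hB : ∀ x ∉ ZL t,
    B x = (α * exp (2 * Real.pi * I * x / t) ^ 2 + β * exp (2 * Real.pi * I * x / t) + γ) /
      (exp (2 * Real.pi * I * x / t) - 1) ^ 2) :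
    ∃ (K Y₀ : ℝ) (j : ℤ) (c : ℂ), 0 < Y₀ ∧ 0 ≤ K ∧ 0 ≤ j ∧ (γ = 0 → 1 ≤ j) ∧ ‖c‖ = 1 ∧
    (∀ s η : ℝ, Y₀ ≤ η → ‖V3.PPH_ph (B (t * (s + η * I))) -
      c * exp (-(2 * Real.pi * I * j * s))‖ ≤ K * Real.exp (-(2 * Real.pi * η))) := by
  have hB' : ∀ s η : ℝ, η ≠ 0 → B (t * (s + η * I)) =
      (α * exp (2 * Real.pi * I * (s + η * I)) ^ 2 + β * exp (2 * Real.pi * I * (s + η * I)) + γ) /
      (exp (2 * Real.pi * I * (s + η * I)) - 1) ^ 2 := by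
    intro s η hη
    rw [hB _ (V3.PPH_notmem t ht s η hη)]
    have hx : 2 * Real.pi * I * (t * (s + η * I)) / t = 2 * Real.pi * I * (s + η * I) := by
      field_simp
    rw [hx]
  have hsq : ∀ Y : ℂ, (Y - 1) ^ 2 = (1 - Y) ^ 2 := fun Y => by ring
  by_cases hγ : γ = 0
  · by_cases hβ : β = 0
    · have hα : α ≠ 0 := by
        rcases hab with h | h | h
        · exact h
        · exact absurd hβ h
        · exact absurd hγ h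
      obtain ⟨K, Y₀, d, h1, h2, h3, h4⟩ := PPH_genup B t α 0 0 2 hα (by
        intro s η hη
        rw [hB' s η hη, hβ, hγ, hsq]
        have h2 : exp (2 * Real.pi * I * (s + η * I)) ^ (2 : ℤ) = exp (2 * Real.pi * I * (s + η * I)) ^ 2 := by
          norm_cast
        rw [h2]
        ring)
      exact ⟨K, Y₀, 2, d, h1, h2, by norm_num, fun _ => by norm_num, h3, h4⟩
    · obtain ⟨K, Y₀, d, h1, h2, h3, h4⟩ := PPH_genup B t β α 0 1 hβ (by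
        intro s η hη
        rw [hB' s η hη, hγ, hsq, zpow_one]
        ring)
      exact ⟨K, Y₀, 1, d, h1, h2, by norm_num, fun _ => le_rfl, h3, h4⟩
  · obtain ⟨K, Y₀, d, h1, h2, h3, h4⟩ := PPH_genup B t γ β α 0 hγ (by
      intro s η hη
      rw [hB' s η hη, hsq, zpow_zero, one_mul]
      congr 1
      ring)
    exact ⟨K, Y₀, 0, d, h1, h2, le_rfl, fun h => absurd h hγ, h3, h4⟩

theorem PPH_inv (Y α β γ : ℂ) (hY : Y ≠ 0) :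
    (α * Y ^ 2 + β * Y + γ) / (Y - 1) ^ 2 = (α + β * Y⁻¹ + γ * Y⁻¹ ^ 2) / (1 - Y⁻¹) ^ 2 := by
  have h2 : (Y - 1) ^ 2 = (1 - Y⁻¹) ^ 2 * Y ^ 2 := by
    field_simp
  have h3 : α * Y ^ 2 + β * Y + γ = (α + β * Y⁻¹ + γ * Y⁻¹ ^ 2) * Y ^ 2 := by
    field_simp
  rw [h2, h3]
  exact mul_div_mul_right _ _ (pow_ne_zero 2 hY)

/-- the lower end -/
theorem PPH_low (B : ℂ → ℂ) (t α β γ : ℂ) (ht : t ≠ 0) (hab : α ≠ 0 ∨ β ≠ 0 ∨ γ ≠ 0) (hB : ∀ x ∉ ZL t,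
    B x = (α * exp (2 * Real.pi * I * x / t) ^ 2 + β * exp (2 * Real.pi * I * x / t) + γ) /
      (exp (2 * Real.pi * I * x / t) - 1) ^ 2) :
    ∃ (K Y₀ : ℝ) (j : ℤ) (c : ℂ), 0 < Y₀ ∧ 0 ≤ K ∧ j ≤ 0 ∧ (α = 0 → j ≤ -1) ∧ ‖c‖ = 1 ∧
    (∀ s η : ℝ, η ≤ -Y₀ → ‖V3.PPH_ph (B (t * (s + η * I))) -
      c * exp (-(2 * Real.pi * I * j * s))‖ ≤ K * Real.exp (2 * Real.pi * η)) := by
  have hB' : ∀ s η : ℝ, η ≠ 0 → B (t * (s + η * I)) =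
      (α + β * (exp (2 * Real.pi * I * (s + η * I)))⁻¹ + γ * (exp (2 * Real.pi * I * (s + η * I)))⁻¹ ^ 2) /
      (1 - (exp (2 * Real.pi * I * (s + η * I)))⁻¹) ^ 2 := by
    intro s η hη
    rw [hB _ (V3.PPH_notmem t ht s η hη)]
    have hx : 2 * Real.pi * I * (t * (s + η * I)) / t = 2 * Real.pi * I * (s + η * I) := by
      field_simp
    rw [hx]
    exact PPH_inv _ _ _ _ (exp_ne_zero _)
  by_cases hα : α = 0
  · by_cases hβ : β = 0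
    · have hγ : γ ≠ 0 := by
        rcases hab with h | h | h
        · exact absurd hα h
        · exact absurd hβ h
        · exact h
      obtain ⟨K, Y₀, d, h1, h2, h3, h4⟩ := PPH_genlow B t γ 0 0 (-2) hγ (by
        intro s η hη
        rw [hB' s η hη, hβ, hα]
        have h2 : exp (2 * Real.pi * I * (s + η * I)) ^ (-2 : ℤ) =
            (exp (2 * Real.pi * I * (s + η * I)))⁻¹ ^ 2 := by
          rw [zpow_neg, inv_pow]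
          norm_cast
        rw [h2]
        ring)
      exact ⟨K, Y₀, -2, d, h1, h2, by norm_num, fun _ => by norm_num, h3, h4⟩
    · obtain ⟨K, Y₀, d, h1, h2, h3, h4⟩ := PPH_genlow B t β γ 0 (-1) hβ (by
        intro s η hη
        rw [hB' s η hη, hα, zpow_neg_one]
        ring)
      exact ⟨K, Y₀, -1, d, h1, h2, by norm_num, fun _ => le_rfl, h3, h4⟩
  · obtain ⟨K, Y₀, d, h1, h2, h3, h4⟩ := PPH_genlow B t α β γ 0 hα (by
      intro s η hη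
      rw [hB' s η hη, zpow_zero, one_mul])
    exact ⟨K, Y₀, 0, d, h1, h2, le_rfl, fun h => absurd h hα, h3, h4⟩

theorem PPH : PPH_stmt := by
  intro B t α β γ ht hab hB
  obtain ⟨K₁, Y₁, j₁, c₁, hY₁, hK₁, hj₁, hg₁, hc₁, h₁⟩ := PPH_up B t α β γ ht hab hB
  obtain ⟨K₂, Y₂, j₂, c₂, hY₂, hK₂, hj₂, hg₂, hc₂, h₂⟩ := PPH_low B t α β γ ht hab hB
  refine ⟨max K₁ K₂, max Y₁ Y₂, j₁, j₂, c₁, c₂, lt_max_of_lt_left hY₁, hj₁, hj₂, hg₁, hg₂, hc₁, hc₂, ?_, ?_⟩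
  · intro s η hη
    refine (h₁ s η ((le_max_left _ _).trans hη)).trans ?_
    exact mul_le_mul_of_nonneg_right (le_max_left _ _) (Real.exp_pos _).le
  · intro s η hη
    refine (h₂ s η (hη.trans (neg_le_neg (le_max_right _ _)))).trans ?_
    exact mul_le_mul_of_nonneg_right (le_max_right _ _) (Real.exp_pos _).le

end XPE

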